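import Pool.Agent.Q206.PI.Data

/-!
# Existence of the amplitudes
-/

namespace Pool.Agent.Q206.PI

open Finset

/-- Real vector associated with a packed integer vector. -/
noncomputable def vec (n s : ℕ) (i : ℕ) : ℝ := if i < 40 then (gt n i : ℝ) / 2 ^ s else 0

/-- All indices of the form are below `40`. -/
def bdd (f : List (ℕ × ℕ × ℤ)) : Bool := f.all fun t => decide (t.1 < 40) && decide (t.2.1 < 40)

lemma bdd_cons (t : ℕ × ℕ × ℤ) (f : List (ℕ × ℕ × ℤ)) (h : bdd (t :: f) = true) :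
    (t.1 < 40 ∧ t.2.1 < 40) ∧ bdd f = true := by
  simpa [bdd] using h

lemma evalF_vec (f : List (ℕ × ℕ × ℤ)) (hf : bdd f = true) (x s : ℕ) :
    evalF f (vec x s) = (evalZ f x : ℝ) / 2 ^ (2 * s) := by
  induction f with
  | nil => simp [evalF, evalZ]
  | cons t f ih =>
    obtain ⟨⟨h1, h2⟩, h3⟩ := bdd_cons t f hf
    have ih' := ih h3
    simp only [evalF, evalZ, List.map_cons, List.sum_cons] at ih' ⊢
    rw [ih']
    push_cast
    simp only [vec, if_pos h1, if_pos h2]
    rw [pow_mul', sq]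
    field_simp

lemma polar_vec (f : List (ℕ × ℕ × ℤ)) (hf : bdd f = true) (x u s p : ℕ) :
    polar f (vec x s) (vec u p) = (polarZ f x u : ℝ) / 2 ^ (s + p) := by
  induction f with
  | nil => simp [polar, polarZ]
  | cons t f ih =>
    obtain ⟨⟨h1, h2⟩, h3⟩ := bdd_cons t f hf
    have ih' := ih h3
    simp only [polar, polarZ, List.map_cons, List.sum_cons] at ih' ⊢
    rw [ih']
    push_cast
    simp only [vec, if_pos h1, if_pos h2]
    rw [pow_add]
    field_simp

lemma absF_vec (f : List (ℕ × ℕ × ℤ)) (hf : bdd f = true) (x s : ℕ) :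
    absF f (vec x s) = (absZ f x : ℝ) / 2 ^ (2 * s) := by
  induction f with
  | nil => simp [absF, absZ]
  | cons t f ih =>
    obtain ⟨⟨h1, h2⟩, h3⟩ := bdd_cons t f hf
    have ih' := ih h3
    simp only [absF, absZ, List.map_cons, List.sum_cons] at ih' ⊢
    rw [ih']
    push_cast
    simp only [vec, if_pos h1, if_pos h2]
    rw [pow_mul', sq]
    field_simp

lemma list_range_sum {M : Type*} [AddCommMonoid M] (n : ℕ) (g : ℕ → M) :
    ((List.range n).map g).sum = ∑ i ∈ range n, g i := by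
  induction n with
  | zero => simp
  | succ n ih => rw [List.range_succ, List.map_append, List.sum_append, ih, sum_range_succ]; simp

set_option maxRecDepth 1000000 in
lemma check5 : ∀ k < 36, bdd (formOf (specs.getD k (0, 0, 0, 0))) = true := by
  decide +kernel

lemma check6 : gt R0 0 < 2 ^ 16 * |gt X0 0| := by decide +kernel

/-- Exact solution of the system. -/
theorem exists_solution : ∃ x : ℕ → ℝ, x 0 ≠ 0 ∧
    ∀ k < 36, evalF (formOf (specs.getD k (0, 0, 0, 0))) x = 0 := by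
  have hrow : ∀ i, ∑ l : Fin 36, |vec (B0.getD l 0) 40 i| ≤ vec R0 40 i := by
    intro i
    unfold vec
    split_ifs with hi
    · have := check4 i hi
      rw [list_range_sum, Finset.sum_range] at this
      have h2 : ∑ l : Fin 36, |(gt (B0.getD l 0) i : ℝ)| ≤ (gt R0 i : ℝ) := by exact_mod_cast this
      simp only [abs_div, abs_of_pos (show (0:ℝ) < 2 ^ 40 by positivity)]
      rw [← Finset.sum_div]
      gcongr
    · simp
  have hc1 : ∀ k : Fin 36, |evalF (formOf (specs.getD k (0, 0, 0, 0))) (vec X0 64)| ≤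
      (2 : ℝ) ^ 83 / 2 ^ 128 := by
    intro k
    rw [evalF_vec _ (check5 k k.2), abs_div, abs_of_pos (show (0:ℝ) < 2 ^ (2 * 64) by positivity)]
    have := check1 k k.2
    have h2 : |(evalZ (formOf (specs.getD k (0, 0, 0, 0))) X0 : ℝ)| ≤ 2 ^ 83 := by
      exact_mod_cast this
    rw [show 2 * 64 = 128 by norm_num]
    exact div_le_div_of_nonneg_right h2 (by positivity)
  have hc2 : ∀ k : Fin 36, ∑ l : Fin 36, |polar (formOf (specs.getD k (0, 0, 0, 0))) (vec X0 64)
        (fun i => vec (B0.getD l 0) 40 i) - if k = l then 1 else 0| ≤ (2 : ℝ) ^ 88 / 2 ^ 104 := by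
    intro k
    have := check2 k k.2
    unfold devZ at this
    rw [list_range_sum, Finset.sum_range] at this
    have h2 : ∑ l : Fin 36, |(polarZ (formOf (specs.getD k (0, 0, 0, 0))) X0 (B0.getD l 0) : ℝ) -
        (if (k : ℕ) = (l : ℕ) then 2 ^ 104 else 0)| ≤ 2 ^ 88 := by exact_mod_cast this
    have h3 : ∀ l : Fin 36, |polar (formOf (specs.getD k (0, 0, 0, 0))) (vec X0 64)
        (fun i => vec (B0.getD l 0) 40 i) - if k = l then 1 else 0| =
        |(polarZ (formOf (specs.getD k (0, 0, 0, 0))) X0 (B0.getD l 0) : ℝ) -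
        (if (k : ℕ) = (l : ℕ) then 2 ^ 104 else 0)| / 2 ^ 104 := by
      intro l
      have e : (fun i => vec (B0.getD l 0) 40 i) = vec (B0.getD l 0) 40 := rfl
      rw [e, polar_vec _ (check5 k k.2)]
      have h104 : (0:ℝ) < 2 ^ 104 := by positivity
      rw [← abs_of_pos h104, ← abs_div, abs_of_pos h104, sub_div]
      congr 2
      by_cases hkl : k = l
      · rw [if_pos hkl, if_pos (by rw [hkl]), div_self (ne_of_gt h104)]
      · rw [if_neg hkl, if_neg (by rwa [Fin.val_inj]), zero_div]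
    simp only [h3]
    rw [← Finset.sum_div]
    exact div_le_div_of_nonneg_right h2 (by positivity)
  have hc3 : ∀ k : Fin 36, absF (formOf (specs.getD k (0, 0, 0, 0))) (vec R0 40) ≤
      (2 : ℝ) ^ 109 / 2 ^ 80 := by
    intro k
    rw [absF_vec _ (check5 k k.2)]
    have := check3 k k.2
    have h2 : (absZ (formOf (specs.getD k (0, 0, 0, 0))) R0 : ℝ) ≤ 2 ^ 109 := by
      exact_mod_cast this
    rw [show 2 * 40 = 80 by norm_num]
    exact div_le_div_of_nonneg_right h2 (by positivity)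
  obtain ⟨y, hy, hz⟩ := exists_zero (K := 36)
    (fun k => formOf (specs.getD k (0, 0, 0, 0))) (vec X0 64) (fun i l => vec (B0.getD l 0) 40 i)
    (vec R0 40) ((2 : ℝ) ^ 83 / 2 ^ 128) ((2 : ℝ) ^ 88 / 2 ^ 104) ((2 : ℝ) ^ 109 / 2 ^ 80)
    (1 / 2 ^ 40) (by positivity) hc1 hc2 hrow hc3 (by norm_num) (by norm_num)
  refine ⟨_, ?_, fun k hk => hz ⟨k, hk⟩⟩
  intro h0
  have h1 : |∑ l : Fin 36, vec (B0.getD l 0) 40 0 * y l| ≤ vec R0 40 0 * (1 / 2 ^ 40) := by
    refine (Finset.abs_sum_le_sum_abs _ _).trans ?_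
    calc _ ≤ ∑ l : Fin 36, |vec (B0.getD l 0) 40 0| * (1 / 2 ^ 40) := by
          refine Finset.sum_le_sum fun l _ => ?_
          rw [abs_mul]
          exact mul_le_mul_of_nonneg_left (hy l) (abs_nonneg _)
      _ ≤ _ := by
          rw [← Finset.sum_mul]
          exact mul_le_mul_of_nonneg_right (hrow 0) (by positivity)
  have h2 : vec X0 64 0 = - ∑ l : Fin 36, vec (B0.getD l 0) 40 0 * y l := by linarith
  have h3 : |vec X0 64 0| ≤ vec R0 40 0 * (1 / 2 ^ 40) := by rw [h2, abs_neg]; exact h1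
  have h4 : (gt R0 0 : ℝ) < 2 ^ 16 * |(gt X0 0 : ℝ)| := by exact_mod_cast check6
  simp only [vec, if_pos (show 0 < 40 by norm_num), abs_div,
    abs_of_pos (show (0:ℝ) < 2 ^ 64 by positivity)] at h3
  have h5 : |(gt X0 0 : ℝ)| * 2 ^ 16 ≤ gt R0 0 := by
    have : |(gt X0 0 : ℝ)| / 2 ^ 64 * 2 ^ 80 ≤ (gt R0 0 : ℝ) / 2 ^ 40 * (1 / 2 ^ 40) * 2 ^ 80 :=
      mul_le_mul_of_nonneg_right h3 (by positivity)
    calc |(gt X0 0 : ℝ)| * 2 ^ 16 = |(gt X0 0 : ℝ)| / 2 ^ 64 * 2 ^ 80 := by ring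
      _ ≤ _ := this
      _ = gt R0 0 := by ring
  linarith

end Pool.Agent.Q206.PI
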