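import Pool.Agent.Q206.LU.Basic

/-!
# Permutation invariant qubit codes: definitions and the Knill-Laflamme conditions
-/

namespace Pool.Agent.Q206.PI

open Finset ComplexConjugate Matrix
open Pool.Agent.Q206.LU (tens pauli sigma)

/-- The number of ones of a bit string. -/
def wt {n : ℕ} (x : Fin n → Fin 2) : ℕ := ∑ i, (x i : ℕ)

/-- The Dicke state `|D^n_j⟩`, the normalised sum of all basis states with `j` ones. -/
noncomputable def dicke (n j : ℕ) : (Fin n → Fin 2) → ℂ :=
  fun x => if wt x = j then (((Real.sqrt (n.choose j))⁻¹ : ℝ) : ℂ) else 0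

/-- The vector `∑ j, α_j |D^n_j⟩`. -/
noncomputable def codeword {n : ℕ} (α : Fin (n + 1) → ℂ) : (Fin n → Fin 2) → ℂ :=
  fun x => ∑ j : Fin (n + 1), α j * dicke n j x

/-- The inner product `⟨φ|ψ⟩` of `n`-qubit vectors. -/
noncomputable def ip {n : ℕ} (φ ψ : (Fin n → Fin 2) → ℂ) : ℂ := ∑ x, conj (φ x) * ψ x

/-- The weight of a Pauli string: the number of letters different from the identity. -/
def pauliWeight {n : ℕ} (s : Fin n → Fin 4) : ℕ := (univ.filter fun i => s i ≠ 0).card

/-- The codewords `c 0`, `c 1` are orthonormal and satisfy the Knill-Laflamme conditions for all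
pairs of Pauli operators of weight at most `t`. -/
def Corrects (n t : ℕ) (c : Fin 2 → (Fin n → Fin 2) → ℂ) : Prop :=
  (∀ i k, ip (c i) (c k) = if i = k then 1 else 0) ∧
  ∀ E F : Fin n → Fin 4, pauliWeight E ≤ t → pauliWeight F ≤ t →
    ∃ lam : ℂ, ∀ i k, ip (c i) (((pauli E)ᴴ * pauli F) *ᵥ c k) = if i = k then lam else 0

/-- `n_min(t)`: the least block length of a permutation invariant qubit code correcting `t`
errors. -/
noncomputable def nMin (t : ℕ) : ℕ :=
  sInf {n | ∃ α β : Fin (n + 1) → ℂ, Corrects n t ![codeword α, codeword β]}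

/-! ### an expansion lemma -/

lemma sum_cons {n : ℕ} {M : Type*} [AddCommMonoid M] (f : (Fin (n + 1) → Fin 2) → M) :
    ∑ x, f x = ∑ a : Fin 2, ∑ x : Fin n → Fin 2, f (Fin.cons a x) := by
  rw [← (Fin.consEquiv fun _ : Fin (n + 1) => Fin 2).sum_comp, Fintype.sum_prod_type]
  rfl

lemma wt_cons {n : ℕ} (a : Fin 2) (x : Fin n → Fin 2) :
    wt (Fin.cons a x : Fin (n + 1) → Fin 2) = a + wt x := by
  unfold wt
  rw [Fin.sum_univ_succ]
  simp

lemma card_succ {n : ℕ} (S : Finset (Fin (n + 1))) :
    S.card = (if (0 : Fin (n + 1)) ∈ S then 1 else 0) +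
      (univ.filter fun i : Fin n => i.succ ∈ S).card := by
  rw [Finset.card_filter, ← Fin.sum_univ_succ (fun i => if i ∈ S then 1 else 0)]
  simp

lemma vanish (n : ℕ) : ∀ (N m : ℕ), n = N + m → ∀ (G : Fin n → Matrix (Fin 2) (Fin 2) ℂ)
    (S : Finset (Fin n)), (∀ i, i ∉ S → G i = 1) → S.card ≤ m → ∀ (h : ℕ → ℕ → ℂ) (P Q : ℕ),
    (∀ p q, p ≤ P + m → q ≤ Q + m →
      ∑ j ∈ range (N + 1), (N.choose j : ℂ) * h (p + j) (q + j) = 0) →
    ∀ p q, p ≤ P → q ≤ Q →
      ∑ x : Fin n → Fin 2, ∑ y : Fin n → Fin 2, (∏ i, G i (x i) (y i)) *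
        h (p + wt x) (q + wt y) = 0 := by
  induction n with
  | zero =>
    intro N m hn G S _ _ h P Q hH p q hp hq
    have hN : N = 0 := by omega
    have := hH p q (by omega) (by omega)
    subst hN
    simpa [wt] using this
  | succ n ih =>
    intro N m hn G S hS hc h P Q hH p q hp hq
    rw [sum_cons]
    simp only [sum_cons (n := n) (M := ℂ), wt_cons, Fin.prod_univ_succ, Fin.cons_zero,
      Fin.cons_succ]
    set S' : Finset (Fin n) := univ.filter fun i : Fin n => i.succ ∈ S with hS'
    have hcS : S.card = (if (0 : Fin (n + 1)) ∈ S then 1 else 0) + S'.card := card_succ S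
    have hG' : ∀ i, i ∉ S' → G i.succ = 1 := by
      intro i hi
      apply hS
      intro h2
      exact hi (by simp [hS', h2])
    by_cases hcase : S'.card + 1 ≤ m
    · -- all terms vanish
      obtain ⟨m', rfl⟩ : ∃ m', m = m' + 1 := ⟨m - 1, by omega⟩
      have key := ih N m' (by omega) (fun i => G i.succ) S' hG' (by omega) h (P + 1) (Q + 1)
        (fun p q hp hq => hH p q (by omega) (by omega))
      refine Finset.sum_eq_zero fun a _ => ?_
      rw [Finset.sum_comm]
      refine Finset.sum_eq_zero fun b _ => ?_
      have := key (p + a) (q + b) (by omega) (by omega)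
      calc _ = G 0 a b * ∑ x : Fin n → Fin 2, ∑ y : Fin n → Fin 2,
            (∏ i, G (Fin.succ i) (x i) (y i)) * h (p + a + wt x) (q + b + wt y) := by
            rw [Finset.mul_sum]
            refine Finset.sum_congr rfl fun x _ => ?_
            rw [Finset.mul_sum]
            refine Finset.sum_congr rfl fun y _ => ?_
            rw [mul_assoc, add_assoc, add_assoc]
        _ = 0 := by rw [this, mul_zero]
    · -- the first factor is the identity
      have h0 : (0 : Fin (n + 1)) ∉ S := by
        intro h0
        rw [if_pos h0] at hcS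
        omega
      have hN : N ≠ 0 := by
        rintro rfl
        have := Finset.card_le_univ S'
        rw [Fintype.card_fin] at this
        omega
      obtain ⟨N', rfl⟩ := Nat.exists_eq_succ_of_ne_zero hN
      rw [if_neg h0] at hcS
      have hG0 : G 0 = 1 := hS 0 h0
      have key := ih N' m (by omega) (fun i => G i.succ) S' hG' (by omega)
        (fun p q => h p q + h (p + 1) (q + 1)) P Q (by
          intro p q hp hq
          have := hH p q hp hq
          rw [Finset.sum_range_succ'] at this
          simp only [Nat.succ_eq_add_one, Nat.choose_succ_succ, Nat.cast_add, add_mul,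
            Nat.choose_zero_right, Nat.cast_one, one_mul, add_zero] at this
          rw [Finset.sum_add_distrib] at this
          rw [Finset.sum_congr rfl (fun j _ => mul_add _ _ _), Finset.sum_add_distrib]
          have e1 : ∑ j ∈ range (N' + 1), (N'.choose (j + 1) : ℂ) * h (p + (j + 1)) (q + (j + 1)) +
              h p q = ∑ j ∈ range (N' + 1), (N'.choose j : ℂ) * h (p + j) (q + j) := by
            rw [Finset.sum_range_succ]
            rw [Nat.choose_succ_self, Nat.cast_zero, zero_mul, add_zero]
            rw [Finset.sum_range_succ' (fun j => (N'.choose j : ℂ) * h (p + j) (q + j))]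
            simp
          rw [← e1]
          simp only [add_assoc] at this ⊢
          linear_combination this) p q hp hq
      simp only [hG0, Fin.sum_univ_two, Matrix.one_apply]
      simp only [Fin.isValue, ↓reduceIte, one_mul, zero_ne_one, zero_mul, one_ne_zero, add_zero,
        Finset.sum_const_zero, zero_add, Fin.val_zero, Fin.val_one]
      rw [← key, ← Finset.sum_add_distrib]
      refine Finset.sum_congr rfl fun x _ => ?_
      rw [← Finset.sum_add_distrib]
      refine Finset.sum_congr rfl fun y _ => ?_
      rw [mul_add, show p + (1 + wt x) = p + wt x + 1 by ring,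
        show q + (1 + wt y) = q + wt y + 1 by ring]

end Pool.Agent.Q206.PI
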