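import Pool.Agent.Q206.PI.Exist
import Mathlib.Data.Complex.BigOperators

/-!
# The Knill-Laflamme sums of the amplitudes
-/

namespace Pool.Agent.Q206.PI

open Finset ComplexConjugate

/-- The amplitudes encoded by a real vector. -/
noncomputable def amp (x : ℕ → ℝ) (w : ℕ) : ℂ :=
  if w % 3 = 0 then ⟨x (2 * (w / 3)), x (2 * (w / 3) + 1)⟩ else 0

lemma bin_fact : ∀ j < 52, bin.getD j 0 * (j.factorial * (51 - j).factorial) =
    (51).factorial := by
  decide +kernel

lemma bin_eq (j : ℕ) (hj : j < 52) : bin.getD j 0 = (51).choose j := by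
  have h1 := bin_fact j hj
  have h2 := Nat.choose_mul_factorial_mul_factorial (show j ≤ 51 by omega)
  rw [mul_assoc] at h2
  exact Nat.eq_of_mul_eq_mul_right (by positivity) (h1.trans h2.symm)

lemma evalF_nil (x : ℕ → ℝ) : evalF [] x = 0 := by simp [evalF]

lemma evalF_cons (t : ℕ × ℕ × ℤ) (f : List (ℕ × ℕ × ℤ)) (x : ℕ → ℝ) :
    evalF (t :: f) x = (t.2.2 : ℝ) * (x t.1 * x t.2.1) + evalF f x := by simp [evalF]

lemma evalF_append (f g : List (ℕ × ℕ × ℤ)) (x : ℕ → ℝ) :
    evalF (f ++ g) x = evalF f x + evalF g x := by simp [evalF]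

lemma evalF_flatMap (l : List ℕ) (g : ℕ → List (ℕ × ℕ × ℤ)) (x : ℕ → ℝ) :
    evalF (l.flatMap g) x = (l.map fun j => evalF (g j) x).sum := by
  induction l with
  | nil => simp [evalF]
  | cons a l ih => rw [List.flatMap_cons, evalF_append, ih]; simp

lemma eval_conjRe (x : ℕ → ℝ) (u v : ℕ) (c : ℤ) :
    evalF (conjRe u v c) x = ((c : ℂ) * (conj (amp x u) * amp x v)).re := by
  unfold conjRe amp
  by_cases hu : u % 3 = 0 <;> by_cases hv : v % 3 = 0 <;>
    simp [hu, hv, evalF_cons, evalF_nil]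
  ring

lemma eval_conjIm (x : ℕ → ℝ) (u v : ℕ) (c : ℤ) :
    evalF (conjIm u v c) x = ((c : ℂ) * (conj (amp x u) * amp x v)).im := by
  unfold conjIm amp
  by_cases hu : u % 3 = 0 <;> by_cases hv : v % 3 = 0 <;>
    simp [hu, hv, evalF_cons, evalF_nil]
  ring

lemma eval_prodRe (x : ℕ → ℝ) (u v : ℕ) (c : ℤ) :
    evalF (prodRe u v c) x = ((c : ℂ) * (amp x u * amp x v)).re := by
  unfold prodRe amp
  by_cases hu : u % 3 = 0 <;> by_cases hv : v % 3 = 0 <;>
    simp [hu, hv, evalF_cons, evalF_nil]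
  ring

lemma eval_prodIm (x : ℕ → ℝ) (u v : ℕ) (c : ℤ) :
    evalF (prodIm u v c) x = ((c : ℂ) * (amp x u * amp x v)).im := by
  unfold prodIm amp
  by_cases hu : u % 3 = 0 <;> by_cases hv : v % 3 = 0 <;>
    simp [hu, hv, evalF_cons, evalF_nil]
  ring

/-- `∑ j, C(51, j) conj (a (p + j)) a (q + j)`. -/
noncomputable def mSum (a : ℕ → ℂ) (p q : ℕ) : ℂ :=
  ∑ j ∈ range 52, ((51).choose j : ℂ) * (conj (a (p + j)) * a (q + j))

/-- `M (p, q) - (-1) ^ (p + q) M (8 - q, 8 - p)`. -/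
noncomputable def dSum (a : ℕ → ℂ) (p q : ℕ) : ℂ :=
  mSum a p q - (-1) ^ (p + q) * mSum a (8 - q) (8 - p)

/-- `∑ j, (-1) ^ j C(51, j) a (p + j) a (51 - j + q)`. -/
noncomputable def nSum (a : ℕ → ℂ) (p q : ℕ) : ℂ :=
  ∑ j ∈ range 52, (-1) ^ j * ((51).choose j : ℂ) * (a (p + j) * a (51 - j + q))

lemma eval_mForm_re (x : ℕ → ℝ) (p q : ℕ) (c : ℤ) :
    evalF (mForm conjRe p q c) x = ((c : ℂ) * mSum (amp x) p q).re := by
  rw [mForm, evalF_flatMap, list_range_sum, mSum, Finset.mul_sum, Complex.re_sum]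
  refine Finset.sum_congr rfl fun j hj => ?_
  rw [eval_conjRe, bin_eq j (Finset.mem_range.1 hj)]
  push_cast
  rw [mul_assoc]

lemma eval_mForm_im (x : ℕ → ℝ) (p q : ℕ) (c : ℤ) :
    evalF (mForm conjIm p q c) x = ((c : ℂ) * mSum (amp x) p q).im := by
  rw [mForm, evalF_flatMap, list_range_sum, mSum, Finset.mul_sum, Complex.im_sum]
  refine Finset.sum_congr rfl fun j hj => ?_
  rw [eval_conjIm, bin_eq j (Finset.mem_range.1 hj)]
  push_cast
  rw [mul_assoc]

lemma eval_dForm_re (x : ℕ → ℝ) (p q : ℕ) :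
    evalF (dForm conjRe p q) x = (dSum (amp x) p q).re := by
  rw [dForm, evalF_append, eval_mForm_re, eval_mForm_re, dSum, ← Complex.add_re]
  push_cast
  congr 1
  ring

lemma eval_dForm_im (x : ℕ → ℝ) (p q : ℕ) :
    evalF (dForm conjIm p q) x = (dSum (amp x) p q).im := by
  rw [dForm, evalF_append, eval_mForm_im, eval_mForm_im, dSum, ← Complex.add_im]
  push_cast
  congr 1
  ring

lemma eval_nForm_re (x : ℕ → ℝ) (p q : ℕ) :
    evalF (nForm prodRe p q) x = (nSum (amp x) p q).re := by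
  rw [nForm, evalF_flatMap, list_range_sum, nSum, Complex.re_sum]
  refine Finset.sum_congr rfl fun j hj => ?_
  rw [eval_prodRe, bin_eq j (Finset.mem_range.1 hj)]
  push_cast
  rfl

lemma eval_nForm_im (x : ℕ → ℝ) (p q : ℕ) :
    evalF (nForm prodIm p q) x = (nSum (amp x) p q).im := by
  rw [nForm, evalF_flatMap, list_range_sum, nSum, Complex.im_sum]
  refine Finset.sum_congr rfl fun j hj => ?_
  rw [eval_prodIm, bin_eq j (Finset.mem_range.1 hj)]
  push_cast
  rfl

/-! ### symmetries -/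

lemma mSum_conj (a : ℕ → ℂ) (p q : ℕ) : conj (mSum a p q) = mSum a q p := by
  unfold mSum
  rw [map_sum]
  refine Finset.sum_congr rfl fun j _ => ?_
  simp only [map_mul, Complex.conj_conj, Complex.conj_natCast]
  ring

lemma mSum_zero (x : ℕ → ℝ) (p q : ℕ) (h : p % 3 ≠ q % 3) : mSum (amp x) p q = 0 := by
  unfold mSum
  refine Finset.sum_eq_zero fun j _ => ?_
  by_cases h1 : (p + j) % 3 = 0
  · have : (q + j) % 3 ≠ 0 := by omega
    simp [amp, this]
  · simp [amp, h1]

lemma nSum_zero (x : ℕ → ℝ) (p q : ℕ) (h : (p + q) % 3 ≠ 0) : nSum (amp x) p q = 0 := by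
  unfold nSum
  refine Finset.sum_eq_zero fun j hj => ?_
  rw [Finset.mem_range] at hj
  by_cases h1 : (p + j) % 3 = 0
  · have : (51 - j + q) % 3 ≠ 0 := by omega
    simp [amp, this]
  · simp [amp, h1]

lemma nSum_antisymm (a : ℕ → ℂ) (p q : ℕ) : nSum a q p = -nSum a p q := by
  unfold nSum
  rw [← Finset.sum_range_reflect, ← Finset.sum_neg_distrib]
  refine Finset.sum_congr rfl fun j hj => ?_
  rw [Finset.mem_range] at hj
  have e1 : 52 - 1 - j = 51 - j := by omega
  rw [e1, Nat.choose_symm (show j ≤ 51 by omega)]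
  have e2 : 51 - (51 - j) = j := by omega
  rw [e2]
  have e3 : ((-1 : ℂ)) ^ (51 - j) = -(-1) ^ j := by
    have : ((-1 : ℂ)) ^ (51 - j) * (-1) ^ j = -1 := by
      rw [← pow_add, Nat.sub_add_cancel (by omega)]; norm_num
    have h2 : ((-1 : ℂ)) ^ j * (-1) ^ j = 1 := by
      rw [← mul_pow]; norm_num
    calc ((-1 : ℂ)) ^ (51 - j) = (-1) ^ (51 - j) * ((-1) ^ j * (-1) ^ j) := by rw [h2, mul_one]
      _ = ((-1) ^ (51 - j) * (-1) ^ j) * (-1) ^ j := by ring
      _ = _ := by rw [this]; ring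
  rw [e3, show q + (51 - j) = 51 - j + q by omega, show j + p = p + j by omega]
  ring

lemma dSum_conj (a : ℕ → ℂ) (p q : ℕ) : conj (dSum a p q) = dSum a q p := by
  unfold dSum
  rw [map_sub, map_mul, mSum_conj, mSum_conj, map_pow, map_neg, map_one, add_comm p q]

lemma dSum_reflect (a : ℕ → ℂ) (p q : ℕ) (hp : p ≤ 8) (hq : q ≤ 8) :
    dSum a (8 - q) (8 - p) = -((-1) ^ (p + q)) * dSum a p q := by
  unfold dSum
  have e1 : 8 - (8 - p) = p := by omega
  have e2 : 8 - (8 - q) = q := by omega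
  rw [e1, e2]
  have e3 : ((-1 : ℂ)) ^ (8 - q + (8 - p)) = (-1) ^ (p + q) := by
    have h1 : ((-1 : ℂ)) ^ (8 - q + (8 - p)) * (-1) ^ (p + q) = 1 := by
      rw [← pow_add, show 8 - q + (8 - p) + (p + q) = 16 by omega]; norm_num
    have h2 : ((-1 : ℂ)) ^ (p + q) * (-1) ^ (p + q) = 1 := by
      rw [← mul_pow]; norm_num
    calc _ = ((-1 : ℂ)) ^ (8 - q + (8 - p)) * ((-1) ^ (p + q) * (-1) ^ (p + q)) := by
          rw [h2, mul_one]
      _ = (((-1 : ℂ)) ^ (8 - q + (8 - p)) * (-1) ^ (p + q)) * (-1) ^ (p + q) := by ring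
      _ = _ := by rw [h1, one_mul]
  rw [e3]
  have h2 : ((-1 : ℂ)) ^ (p + q) * (-1) ^ (p + q) = 1 := by
    rw [← mul_pow]; norm_num
  linear_combination (-mSum a (8 - q) (8 - p)) * h2

lemma dSum_zero (x : ℕ → ℝ) (p q : ℕ) (hp : p ≤ 8) (hq : q ≤ 8) (h : p % 3 ≠ q % 3) :
    dSum (amp x) p q = 0 := by
  unfold dSum
  rw [mSum_zero x p q h, mSum_zero x (8 - q) (8 - p) (by omega)]
  simp

lemma dSum_diag_im (a : ℕ → ℂ) (p : ℕ) : (dSum a p p).im = 0 := by
  have := dSum_conj a p p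
  exact Complex.conj_eq_iff_im.1 this

/-- Combination of the relations of the first type. -/
lemma combine_d (D : ℕ → ℕ → ℂ) (drefl : ∀ p q p' q', p ≤ 8 → q ≤ 8 → p' = 8 - q → q' = 8 - p →
      D p q = 0 → D p' q' = 0)
    (h0 : D 0 0 = 0) (h1 : D 1 1 = 0) (h2 : D 2 2 = 0) (h33 : D 3 3 = 0) (h44 : D 4 4 = 0)
    (h30 : D 3 0 = 0) (h41 : D 4 1 = 0) (h52 : D 5 2 = 0) (h60 : D 6 0 = 0) (h71 : D 7 1 = 0)
    (p q : ℕ) (hqp : q ≤ p) (hp : p ≤ 8) (h3 : p % 3 = q % 3) : D p q = 0 := by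
  have h55 := drefl 3 3 5 5 (by norm_num) (by norm_num) rfl rfl h33
  have h66 := drefl 2 2 6 6 (by norm_num) (by norm_num) rfl rfl h2
  have h77 := drefl 1 1 7 7 (by norm_num) (by norm_num) rfl rfl h1
  have h88 := drefl 0 0 8 8 (by norm_num) (by norm_num) rfl rfl h0
  have h85 := drefl 3 0 8 5 (by norm_num) (by norm_num) rfl rfl h30
  have h74 := drefl 4 1 7 4 (by norm_num) (by norm_num) rfl rfl h41
  have h63 := drefl 5 2 6 3 (by norm_num) (by norm_num) rfl rfl h52
  have h82 := drefl 6 0 8 2 (by norm_num) (by norm_num) rfl rfl h60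
  interval_cases p <;> interval_cases q <;> first | assumption | (exfalso; revert h3; decide)

/-- Combination of the relations of the second type. -/
lemma combine_n (N : ℕ → ℕ → ℂ) (nsw : ∀ p q, N p q = 0 → N q p = 0) (nd : ∀ p, N p p = 0)
    (n03 : N 0 3 = 0)
    (n06 : N 0 6 = 0)
    (n12 : N 1 2 = 0)
    (n15 : N 1 5 = 0)
    (n18 : N 1 8 = 0)
    (n24 : N 2 4 = 0)
    (n27 : N 2 7 = 0)
    (n36 : N 3 6 = 0)
    (n45 : N 4 5 = 0)
    (n48 : N 4 8 = 0)
    (n57 : N 5 7 = 0)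
    (n78 : N 7 8 = 0)
    (p q : ℕ) (hp : p ≤ 8) (hq : q ≤ 8) (h3 : (p + q) % 3 = 0) : N p q = 0 := by
  have n30 := nsw _ _ n03
  have n60 := nsw _ _ n06
  have n21 := nsw _ _ n12
  have n51 := nsw _ _ n15
  have n81 := nsw _ _ n18
  have n42 := nsw _ _ n24
  have n72 := nsw _ _ n27
  have n63 := nsw _ _ n36
  have n54 := nsw _ _ n45
  have n84 := nsw _ _ n48
  have n75 := nsw _ _ n57
  have n87 := nsw _ _ n78
  have n00 := nd 0
  have n33 := nd 3
  have n66 := nd 6
  interval_cases p <;> interval_cases q <;> first | assumption | (exfalso; revert h3; decide)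

/-- All sums vanish for a solution of the system. -/
theorem sums_zero (x : ℕ → ℝ)
    (hx : ∀ k < 36, evalF (formOf (specs.getD k (0, 0, 0, 0))) x = 0) :
    (∀ p q, p ≤ 8 → q ≤ 8 → dSum (amp x) p q = 0) ∧
    (∀ p q, p ≤ 8 → q ≤ 8 → nSum (amp x) p q = 0) := by
  have hs : ∀ t ∈ specs, evalF (formOf t) x = 0 := by
    intro t ht
    obtain ⟨k, hk, rfl⟩ := List.mem_iff_getElem.1 ht
    have h36 : specs.length = 36 := rfl
    have := hx k (h36 ▸ hk)
    simpa [List.getD, hk] using this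
  have dre : ∀ p q, (0, p, q, 0) ∈ specs → (dSum (amp x) p q).re = 0 := by
    intro p q h
    have := hs _ h
    rwa [show formOf (0, p, q, 0) = dForm conjRe p q from rfl, eval_dForm_re] at this
  have dim : ∀ p q, (0, p, q, 1) ∈ specs → (dSum (amp x) p q).im = 0 := by
    intro p q h
    have := hs _ h
    rwa [show formOf (0, p, q, 1) = dForm conjIm p q from rfl, eval_dForm_im] at this
  have nre : ∀ p q, (1, p, q, 0) ∈ specs → (nSum (amp x) p q).re = 0 := by
    intro p q h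
    have := hs _ h
    rwa [show formOf (1, p, q, 0) = nForm prodRe p q from rfl, eval_nForm_re] at this
  have nim : ∀ p q, (1, p, q, 1) ∈ specs → (nSum (amp x) p q).im = 0 := by
    intro p q h
    have := hs _ h
    rwa [show formOf (1, p, q, 1) = nForm prodIm p q from rfl, eval_nForm_im] at this
  have nz : ∀ p q, (1, p, q, 0) ∈ specs → (1, p, q, 1) ∈ specs → nSum (amp x) p q = 0 :=
    fun p q h1 h2 => Complex.ext (nre p q h1) (nim p q h2)
  have nd : ∀ p, nSum (amp x) p p = 0 := by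
    intro p
    have := nSum_antisymm (amp x) p p
    exact self_eq_neg.1 this
  have nsw : ∀ p q, nSum (amp x) p q = 0 → nSum (amp x) q p = 0 := by
    intro p q h
    rw [nSum_antisymm, h, neg_zero]
  have dz : ∀ p q, (0, p, q, 0) ∈ specs → (0, p, q, 1) ∈ specs → dSum (amp x) p q = 0 :=
    fun p q h1 h2 => Complex.ext (dre p q h1) (dim p q h2)
  have dd : ∀ p, (0, p, p, 0) ∈ specs → dSum (amp x) p p = 0 :=
    fun p h1 => Complex.ext (dre p p h1) (dSum_diag_im _ p)
  have d44 : dSum (amp x) 4 4 = 0 := by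
    have := dSum_reflect (amp x) 4 4 (by norm_num) (by norm_num)
    norm_num at this
    exact self_eq_neg.1 this
  have d71 : dSum (amp x) 7 1 = 0 := by
    have := dSum_reflect (amp x) 7 1 (by norm_num) (by norm_num)
    norm_num at this
    exact self_eq_neg.1 this
  have drefl : ∀ p q p' q', p ≤ 8 → q ≤ 8 → p' = 8 - q → q' = 8 - p → dSum (amp x) p q = 0 →
      dSum (amp x) p' q' = 0 := by
    rintro p q p' q' hp hq rfl rfl h
    rw [dSum_reflect _ _ _ hp hq, h, mul_zero]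
  have dconj : ∀ p q, dSum (amp x) p q = 0 → dSum (amp x) q p = 0 := by
    intro p q h
    rw [← dSum_conj, h, map_zero]
  have hlow : ∀ p q, q ≤ p → p ≤ 8 → dSum (amp x) p q = 0 := by
    intro p q hqp hp
    by_cases h3 : p % 3 = q % 3
    · exact combine_d (dSum (amp x)) drefl (dd 0 (by decide)) (dd 1 (by decide))
        (dd 2 (by decide)) (dd 3 (by decide)) d44 (dz 3 0 (by decide) (by decide))
        (dz 4 1 (by decide) (by decide)) (dz 5 2 (by decide) (by decide))
        (dz 6 0 (by decide) (by decide)) d71 p q hqp hp h3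
    · exact dSum_zero x p q hp (by omega) h3
  refine ⟨fun p q hp hq => ?_, fun p q hp hq => ?_⟩
  · rcases le_total q p with h | h
    · exact hlow p q h hp
    · exact dconj _ _ (hlow q p h hq)
  · by_cases h3 : (p + q) % 3 = 0
    · exact combine_n (nSum (amp x)) nsw nd
        (nz 0 3 (by decide) (by decide))
        (nz 0 6 (by decide) (by decide))
        (nz 1 2 (by decide) (by decide))
        (nz 1 5 (by decide) (by decide))
        (nz 1 8 (by decide) (by decide))
        (nz 2 4 (by decide) (by decide))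
        (nz 2 7 (by decide) (by decide))
        (nz 3 6 (by decide) (by decide))
        (nz 4 5 (by decide) (by decide))
        (nz 4 8 (by decide) (by decide))
        (nz 5 7 (by decide) (by decide))
        (nz 7 8 (by decide) (by decide))
        p q hp hq h3
    · exact nSum_zero x p q h3

end Pool.Agent.Q206.PI
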