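import Pool.Agent.Q206.PI.KL
import Pool.Agent.Q206.PI.Sums

/-!
# A permutation invariant qubit code on 59 qubits correcting 4 errors
-/

namespace Pool.Agent.Q206.PI

open Finset ComplexConjugate Matrix
open Pool.Agent.Q206.LU (tens pauli sigma)

lemma wt_le {n : ℕ} (x : Fin n → Fin 2) : wt x ≤ n := by
  unfold wt
  calc ∑ i, (x i : ℕ) ≤ ∑ _i : Fin n, 1 := Finset.sum_le_sum fun i _ => by omega
    _ = n := by simp

lemma codeword_eq {n : ℕ} (f : ℕ → ℂ) (x : Fin n → Fin 2) :
    codeword (fun j : Fin (n + 1) => f j * ((Real.sqrt (n.choose j) : ℝ) : ℂ)) x = f (wt x) := by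
  unfold codeword dicke
  have hw : wt x < n + 1 := Nat.lt_succ_of_le (wt_le x)
  rw [Finset.sum_eq_single (⟨wt x, hw⟩ : Fin (n + 1))]
  · have h1 : (0 : ℝ) < Real.sqrt (n.choose (wt x)) :=
      Real.sqrt_pos.2 (by exact_mod_cast Nat.choose_pos (wt_le x))
    have h2 : ((Real.sqrt (n.choose (wt x)) : ℝ) : ℂ) ≠ 0 := by exact_mod_cast h1.ne'
    simp only [if_true, Complex.ofReal_inv]
    rw [mul_assoc, mul_inv_cancel₀ h2, mul_one]
  · intro j _ hj
    rw [if_neg, mul_zero]
    intro h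
    apply hj
    exact Fin.ext h.symm
  · simp

lemma ip_tens {n : ℕ} (G : Fin n → Matrix (Fin 2) (Fin 2) ℂ) (f g : ℕ → ℂ) :
    ip (fun x : Fin n → Fin 2 => f (wt x)) (tens G *ᵥ fun y => g (wt y)) =
      ∑ x : Fin n → Fin 2, ∑ y : Fin n → Fin 2, (∏ i, G i (x i) (y i)) *
        (conj (f (wt x)) * g (wt y)) := by
  unfold ip Matrix.mulVec dotProduct tens
  refine Finset.sum_congr rfl fun x _ => ?_
  rw [Finset.mul_sum]
  refine Finset.sum_congr rfl fun y _ => ?_
  ring

lemma ip_eq {n N m : ℕ} (hn : n = N + m) (G : Fin n → Matrix (Fin 2) (Fin 2) ℂ)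
    (S : Finset (Fin n)) (hS : ∀ i, i ∉ S → G i = 1) (hc : S.card ≤ m) (f g f' g' : ℕ → ℂ)
    (hH : ∀ p q, p ≤ m → q ≤ m → ∑ j ∈ range (N + 1), (N.choose j : ℂ) *
      (conj (f (p + j)) * g (q + j) - conj (f' (p + j)) * g' (q + j)) = 0) :
    ip (fun x : Fin n → Fin 2 => f (wt x)) (tens G *ᵥ fun y => g (wt y)) =
      ip (fun x : Fin n → Fin 2 => f' (wt x)) (tens G *ᵥ fun y => g' (wt y)) := by
  rw [ip_tens, ip_tens, ← sub_eq_zero, ← Finset.sum_sub_distrib]
  have := vanish n N m hn G S hS hc (fun p q => conj (f p) * g q - conj (f' p) * g' q) 0 0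
    (fun p q hp hq => hH p q (by omega) (by omega)) 0 0 le_rfl le_rfl
  simp only [zero_add] at this
  rw [← this]
  refine Finset.sum_congr rfl fun x _ => ?_
  rw [← Finset.sum_sub_distrib]
  refine Finset.sum_congr rfl fun y _ => ?_
  ring

lemma tens_conjTranspose {n : ℕ} (A : Fin n → Matrix (Fin 2) (Fin 2) ℂ) :
    (tens A)ᴴ = tens fun i => (A i)ᴴ := by
  ext x y
  simp [tens, Matrix.conjTranspose_apply]

/-- The reflected amplitudes (time reversal). -/
noncomputable def refl (a : ℕ → ℂ) (w : ℕ) : ℂ := (-1) ^ w * conj (a (59 - w))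

lemma neg_one_sq_pow (j : ℕ) : ((-1 : ℂ)) ^ j * (-1) ^ j = 1 := by
  rw [← mul_pow]; norm_num

lemma sum_bb (a : ℕ → ℂ) (p q : ℕ) (hp : p ≤ 8) (hq : q ≤ 8) :
    ∑ j ∈ range 52, ((51).choose j : ℂ) * (conj (refl a (p + j)) * refl a (q + j)) =
      (-1) ^ (p + q) * mSum a (8 - q) (8 - p) := by
  unfold mSum
  rw [← Finset.sum_range_reflect, Finset.mul_sum]
  refine Finset.sum_congr rfl fun j hj => ?_
  rw [Finset.mem_range] at hj
  rw [show 52 - 1 - j = 51 - j by omega, Nat.choose_symm (show j ≤ 51 by omega)]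
  unfold refl
  rw [show 59 - (p + (51 - j)) = 8 - p + j by omega, show 59 - (q + (51 - j)) = 8 - q + j by omega]
  simp only [map_mul, map_pow, map_neg, map_one, Complex.conj_conj, pow_add]
  linear_combination ((51).choose j : ℂ) * (-1) ^ p * (-1) ^ q * conj (a (8 - q + j)) *
    a (8 - p + j) * neg_one_sq_pow (51 - j)

lemma sum_ab (a : ℕ → ℂ) (p q : ℕ) (hq : q ≤ 8) :
    ∑ j ∈ range 52, ((51).choose j : ℂ) * (conj (a (p + j)) * refl a (q + j)) =
      (-1) ^ q * conj (nSum a p (8 - q)) := by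
  unfold nSum
  rw [map_sum, Finset.mul_sum]
  refine Finset.sum_congr rfl fun j hj => ?_
  rw [Finset.mem_range] at hj
  unfold refl
  rw [show 59 - (q + j) = 51 - j + (8 - q) by omega]
  simp only [map_mul, map_pow, map_neg, map_one, Complex.conj_natCast, pow_add]
  ring

lemma sum_ba (a : ℕ → ℂ) (p q : ℕ) (hp : p ≤ 8) :
    ∑ j ∈ range 52, ((51).choose j : ℂ) * (conj (refl a (p + j)) * a (q + j)) =
      (-1) ^ p * nSum a q (8 - p) := by
  unfold nSum
  rw [Finset.mul_sum]
  refine Finset.sum_congr rfl fun j hj => ?_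
  rw [Finset.mem_range] at hj
  unfold refl
  rw [show 59 - (p + j) = 51 - j + (8 - p) by omega]
  simp only [map_mul, map_pow, map_neg, map_one, Complex.conj_conj, pow_add]
  ring

/-- A code from amplitudes with vanishing sums. -/
theorem corrects_of_sums (n : ℕ) (hn : n = 51 + 8) (a : ℕ → ℂ) (ha : a 0 ≠ 0)
    (hD : ∀ p q, p ≤ 8 → q ≤ 8 → dSum a p q = 0) (hN : ∀ p q, p ≤ 8 → q ≤ 8 → nSum a p q = 0) :
    ∃ α β : Fin (n + 1) → ℂ, Corrects n 4 ![codeword α, codeword β] := by
  set V : ℝ := ∑ x : Fin n → Fin 2, Complex.normSq (a (wt x)) with hV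
  have hVpos : 0 < V := by
    refine Finset.sum_pos' (fun x _ => Complex.normSq_nonneg _) ⟨fun _ => 0, Finset.mem_univ _, ?_⟩
    have : wt (fun _ : Fin n => (0 : Fin 2)) = 0 := by simp [wt]
    rw [this]
    exact Complex.normSq_pos.2 ha
  set s : ℂ := ((Real.sqrt V : ℝ) : ℂ) with hs
  have hs2 : s * s = (V : ℂ) := by
    rw [hs, ← Complex.ofReal_mul, Real.mul_self_sqrt hVpos.le]
  have hsc : conj s = s := by rw [hs, Complex.conj_ofReal]
  have hs0 : s ≠ 0 := by
    rw [hs]
    exact_mod_cast (Real.sqrt_pos.2 hVpos).ne'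
  set b : ℕ → ℂ := refl a with hb
  set f : ℕ → ℂ := fun w => a w / s with hf
  set g : ℕ → ℂ := fun w => b w / s with hg
  clear_value f g s b
  -- the three families of sums
  have hM : ∀ (u v : ℕ → ℂ) (p q : ℕ), ∑ j ∈ range 52, ((51).choose j : ℂ) *
      (conj (u (p + j) / s) * (v (q + j) / s)) =
      (∑ j ∈ range 52, ((51).choose j : ℂ) * (conj (u (p + j)) * v (q + j))) / (s * s) := by
    intro u v p q
    rw [Finset.sum_div]
    refine Finset.sum_congr rfl fun j _ => ?_
    rw [map_div₀, hsc]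
    field_simp
  have e1 : ∀ p q, p ≤ 8 → q ≤ 8 → ∑ j ∈ range (51 + 1), ((51).choose j : ℂ) *
      (conj (f (p + j)) * f (q + j) - conj (g (p + j)) * g (q + j)) = 0 := by
    intro p q hp hq
    simp only [mul_sub, Finset.sum_sub_distrib]
    simp only [hf, hg]
    rw [show 51 + 1 = 52 by norm_num, hM a a, hM b b, hb, sum_bb a p q hp hq, ← sub_div]
    have := hD p q hp hq
    unfold dSum at this
    have h2 : ∑ j ∈ range 52, ((51).choose j : ℂ) * (conj (a (p + j)) * a (q + j)) =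
      mSum a p q := rfl
    rw [h2, this, zero_div]
  have e2 : ∀ p q, p ≤ 8 → q ≤ 8 → ∑ j ∈ range (51 + 1), ((51).choose j : ℂ) *
      (conj (f (p + j)) * g (q + j) - conj ((fun _ => 0 : ℕ → ℂ) (p + j)) *
        (fun _ => 0 : ℕ → ℂ) (q + j)) = 0 := by
    intro p q hp hq
    simp only [mul_zero, sub_zero]
    simp only [hf, hg]
    rw [show 51 + 1 = 52 by norm_num, hM a b, hb, sum_ab a p q hq,
      hN p (8 - q) hp (by omega), map_zero, mul_zero, zero_div]
  have e3 : ∀ p q, p ≤ 8 → q ≤ 8 → ∑ j ∈ range (51 + 1), ((51).choose j : ℂ) *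
      (conj (g (p + j)) * f (q + j) - conj ((fun _ => 0 : ℕ → ℂ) (p + j)) *
        (fun _ => 0 : ℕ → ℂ) (q + j)) = 0 := by
    intro p q hp hq
    simp only [mul_zero, sub_zero]
    simp only [hf, hg]
    rw [show 51 + 1 = 52 by norm_num, hM b a, hb, sum_ba a p q hp,
      hN q (8 - p) hq (by omega), mul_zero, zero_div]
  -- the codewords
  set c0 : (Fin n → Fin 2) → ℂ := fun x => f (wt x) with hc0
  set c1 : (Fin n → Fin 2) → ℂ := fun x => g (wt x) with hc1
  have w0 : codeword (fun j : Fin (n + 1) => f j * ((Real.sqrt (n.choose j) : ℝ) : ℂ)) = c0 :=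
    funext fun x => codeword_eq f x
  have w1 : codeword (fun j : Fin (n + 1) => g j * ((Real.sqrt (n.choose j) : ℝ) : ℂ)) = c1 :=
    funext fun x => codeword_eq g x
  have hz : (fun x : Fin n → Fin 2 => (fun _ => 0 : ℕ → ℂ) (wt x)) = 0 := rfl
  have key : ∀ (G : Fin n → Matrix (Fin 2) (Fin 2) ℂ) (S : Finset (Fin n)),
      (∀ i, i ∉ S → G i = 1) → S.card ≤ 8 →
      ip c0 (tens G *ᵥ c0) = ip c1 (tens G *ᵥ c1) ∧ ip c0 (tens G *ᵥ c1) = 0 ∧
        ip c1 (tens G *ᵥ c0) = 0 := by
    intro G S hS hc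
    have z1 := ip_eq (N := 51) (m := 8) hn G S hS hc f f g g e1
    have z2 := ip_eq (N := 51) (m := 8) hn G S hS hc f g (fun _ => 0) (fun _ => 0) e2
    have z3 := ip_eq (N := 51) (m := 8) hn G S hS hc g f (fun _ => 0) (fun _ => 0) e3
    rw [hz] at z2 z3
    refine ⟨z1, z2.trans ?_, z3.trans ?_⟩
    · simp [ip]
    · simp [ip]
  have key1 := key (fun _ => 1) ∅ (fun _ _ => rfl) (by simp)
  rw [Pool.Agent.Q206.LU.tens_one] at key1
  simp only [Matrix.one_mulVec] at key1
  have hnorm : ip c0 c0 = 1 := by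
    unfold ip
    have h1 : ∀ x : Fin n → Fin 2, conj (c0 x) * c0 x =
        (Complex.normSq (a (wt x)) : ℂ) / (s * s) := by
      intro x
      rw [hc0, hf]
      simp only
      rw [map_div₀, hsc, Complex.normSq_eq_conj_mul_self]
      field_simp
    simp only [h1]
    rw [← Finset.sum_div, hs2, hV]
    push_cast
    refine div_self ?_
    have : ((V : ℝ) : ℂ) ≠ 0 := by exact_mod_cast hVpos.ne'
    rw [hV] at this
    push_cast at this
    exact this
  refine ⟨fun j => f j * ((Real.sqrt (n.choose j) : ℝ) : ℂ),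
    fun j => g j * ((Real.sqrt (n.choose j) : ℝ) : ℂ), ?_⟩
  rw [w0, w1]
  refine ⟨?_, ?_⟩
  · intro i k
    fin_cases i <;> fin_cases k
    · simpa using hnorm
    · simpa using key1.2.1
    · simpa using key1.2.2
    · simpa [hnorm] using key1.1.symm
  · intro E F hE hF
    set G : Fin n → Matrix (Fin 2) (Fin 2) ℂ := fun i => (sigma (E i))ᴴ * sigma (F i) with hG
    have hEF : (pauli E)ᴴ * pauli F = tens G := by
      unfold pauli
      rw [tens_conjTranspose, Pool.Agent.Q206.LU.tens_mul]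
    have hk := key G ((univ.filter fun i => E i ≠ 0) ∪ (univ.filter fun i => F i ≠ 0)) (by
      intro i hi
      simp only [Finset.mem_union, Finset.mem_filter, Finset.mem_univ, true_and, not_or,
        not_not] at hi
      rw [hG]
      simp only [hi.1, hi.2]
      simp [sigma]) (by
        refine (Finset.card_union_le _ _).trans ?_
        unfold pauliWeight at hE hF
        omega)
    refine ⟨ip c0 (tens G *ᵥ c0), ?_⟩
    rw [hEF]
    intro i k
    fin_cases i <;> fin_cases k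
    · simp
    · simpa using hk.2.1
    · simpa using hk.2.2
    · simpa using hk.1.symm

/-- **Theorem.** There is a permutation invariant qubit code on `59` qubits correcting `4`
errors. -/
theorem exists_code :
    ∃ α β : Fin 60 → ℂ, Corrects 59 4 ![codeword (n := 59) α, codeword (n := 59) β] := by
  obtain ⟨x, hx0, hx⟩ := exists_solution
  obtain ⟨hD, hN⟩ := sums_zero x hx
  refine corrects_of_sums 59 rfl (amp x) ?_ hD hN
  intro h
  simp only [amp, Nat.zero_mod, if_true] at h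
  exact hx0 (congrArg Complex.re h)

end Pool.Agent.Q206.PI
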