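import Mathlib.Topology.MetricSpace.Contracting
import Mathlib.Analysis.Normed.Group.Constructions
import Mathlib.Data.Real.Basic
import Mathlib.Tactic

/-!
# A Newton-Kantorovich type existence theorem for systems of real quadratic forms
-/

namespace Pool.Agent.Q206.PI

/-- A quadratic form, given by its list of terms `(p, q, c)` standing for `c x_p x_q`. -/
def evalF (f : List (ℕ × ℕ × ℤ)) (x : ℕ → ℝ) : ℝ :=
  (f.map fun t => (t.2.2 : ℝ) * (x t.1 * x t.2.1)).sum

/-- The polar form of `f`. -/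
def polar (f : List (ℕ × ℕ × ℤ)) (x u : ℕ → ℝ) : ℝ :=
  (f.map fun t => (t.2.2 : ℝ) * (x t.1 * u t.2.1 + u t.1 * x t.2.1)).sum

/-- The form with absolute values of the coefficients. -/
def absF (f : List (ℕ × ℕ × ℤ)) (r : ℕ → ℝ) : ℝ :=
  (f.map fun t => |(t.2.2 : ℝ)| * (r t.1 * r t.2.1)).sum

lemma evalF_add (f : List (ℕ × ℕ × ℤ)) (x u : ℕ → ℝ) :
    evalF f (fun i => x i + u i) = evalF f x + polar f x u + evalF f u := by
  induction f with
  | nil => simp [evalF, polar]
  | cons t f ih =>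
    simp only [evalF, polar, List.map_cons, List.sum_cons] at ih ⊢
    rw [ih]; ring

lemma polar_sum {ι : Type*} (s : Finset ι) (f : List (ℕ × ℕ × ℤ)) (x : ℕ → ℝ)
    (w : ι → ℝ) (a : ℕ → ι → ℝ) :
    polar f x (fun i => ∑ l ∈ s, a i l * w l) = ∑ l ∈ s, w l * polar f x (fun i => a i l) := by
  induction f with
  | nil => simp [polar]
  | cons t f ih =>
    simp only [polar, List.map_cons, List.sum_cons] at ih ⊢
    rw [ih]
    simp only [mul_add, Finset.sum_add_distrib, Finset.mul_sum, Finset.sum_mul]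
    congr 1
    congr 1
    · refine Finset.sum_congr rfl fun l _ => by ring
    · refine Finset.sum_congr rfl fun l _ => by ring

lemma evalF_sub_le (f : List (ℕ × ℕ × ℤ)) (u v r : ℕ → ℝ) (ρ w : ℝ) (hρ : 0 ≤ ρ) (hw : 0 ≤ w)
    (hr : ∀ i, 0 ≤ r i) (hu : ∀ i, |u i| ≤ r i * ρ) (hv : ∀ i, |v i| ≤ r i * ρ)
    (huv : ∀ i, |u i - v i| ≤ r i * w) :
    |evalF f u - evalF f v| ≤ 2 * ρ * w * absF f r := by
  induction f with
  | nil => simp [evalF, absF]
  | cons t f ih =>
    simp only [evalF, absF, List.map_cons, List.sum_cons] at ih ⊢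
    have h1 : |u t.1 * u t.2.1 - v t.1 * v t.2.1| ≤ 2 * ρ * w * (r t.1 * r t.2.1) := by
      have e : u t.1 * u t.2.1 - v t.1 * v t.2.1 =
        (u t.1 - v t.1) * u t.2.1 + v t.1 * (u t.2.1 - v t.2.1) := by ring
      rw [e]
      refine (abs_add_le _ _).trans ?_
      rw [abs_mul, abs_mul]
      have a1 := mul_le_mul (huv t.1) (hu t.2.1) (abs_nonneg _) (mul_nonneg (hr _) hw)
      have a2 := mul_le_mul (hv t.1) (huv t.2.1) (abs_nonneg _) (mul_nonneg (hr _) hρ)
      calc _ ≤ r t.1 * w * (r t.2.1 * ρ) + r t.1 * ρ * (r t.2.1 * w) := add_le_add a1 a2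
        _ = _ := by ring
    have h2 : |(t.2.2 : ℝ) * (u t.1 * u t.2.1) - (t.2.2 : ℝ) * (v t.1 * v t.2.1)| ≤
        2 * ρ * w * (|(t.2.2 : ℝ)| * (r t.1 * r t.2.1)) := by
      rw [← mul_sub, abs_mul]
      calc _ ≤ |(t.2.2 : ℝ)| * (2 * ρ * w * (r t.1 * r t.2.1)) :=
            mul_le_mul_of_nonneg_left h1 (abs_nonneg _)
        _ = _ := by ring
    calc _ = |((t.2.2 : ℝ) * (u t.1 * u t.2.1) - (t.2.2 : ℝ) * (v t.1 * v t.2.1)) +
          ((f.map fun t => (t.2.2 : ℝ) * (u t.1 * u t.2.1)).sum -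
            (f.map fun t => (t.2.2 : ℝ) * (v t.1 * v t.2.1)).sum)| := by congr 1; ring
      _ ≤ _ := (abs_add_le _ _).trans (add_le_add h2 ih)
      _ = _ := by ring

/-- **Existence of an exact zero** near an approximate one. -/
theorem exists_zero {K : ℕ} (F : Fin K → List (ℕ × ℕ × ℤ)) (x : ℕ → ℝ) (a : ℕ → Fin K → ℝ)
    (r : ℕ → ℝ) (ε δ S ρ : ℝ) (hρ : 0 < ρ)
    (hε : ∀ k, |evalF (F k) x| ≤ ε)
    (hδ : ∀ k, ∑ l, |polar (F k) x (fun i => a i l) - if k = l then 1 else 0| ≤ δ)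
    (hr : ∀ i, ∑ l, |a i l| ≤ r i) (hS : ∀ k, absF (F k) r ≤ S)
    (h1 : δ + 2 * ρ * S ≤ 1 / 2) (h2 : ε ≤ ρ / 2) :
    ∃ y : Fin K → ℝ, (∀ k, |y k| ≤ ρ) ∧
      ∀ k, evalF (F k) (fun i => x i + ∑ l, a i l * y l) = 0 := by
  classical
  set T : (Fin K → ℝ) → (Fin K → ℝ) := fun y k => y k - evalF (F k) (fun i => x i + ∑ l, a i l * y l)
    with hT
  have hr0 : ∀ i, 0 ≤ r i := fun i => (Finset.sum_nonneg fun l _ => abs_nonneg _).trans (hr i)
  have hlin : ∀ (w : Fin K → ℝ) (i : ℕ), |∑ l, a i l * w l| ≤ r i * ‖w‖ := by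
    intro w i
    calc |∑ l, a i l * w l| ≤ ∑ l, |a i l * w l| := Finset.abs_sum_le_sum_abs _ _
      _ ≤ ∑ l, |a i l| * ‖w‖ := by
          refine Finset.sum_le_sum fun l _ => ?_
          rw [abs_mul]
          exact mul_le_mul_of_nonneg_left (norm_le_pi_norm w l) (abs_nonneg _)
      _ = (∑ l, |a i l|) * ‖w‖ := by rw [Finset.sum_mul]
      _ ≤ _ := mul_le_mul_of_nonneg_right (hr i) (norm_nonneg _)
  have hlip : ∀ y ∈ Metric.closedBall (0 : Fin K → ℝ) ρ, ∀ z ∈ Metric.closedBall (0 : Fin K → ℝ) ρ,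
      dist (T y) (T z) ≤ 1 / 2 * dist y z := by
    intro y hy z hz
    rw [mem_closedBall_zero_iff] at hy hz
    rw [dist_eq_norm, dist_eq_norm]
    rw [pi_norm_le_iff_of_nonneg (by positivity)]
    intro k
    have e1 : (T y - T z) k = -(∑ l, (y l - z l) *
        (polar (F k) x (fun i => a i l) - if k = l then 1 else 0)) -
        (evalF (F k) (fun i => ∑ l, a i l * y l) - evalF (F k) (fun i => ∑ l, a i l * z l)) := by
      simp only [hT, Pi.sub_apply]
      rw [evalF_add, evalF_add, polar_sum, polar_sum]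
      have : ∑ l, (y l - z l) * (polar (F k) x (fun i => a i l) - if k = l then 1 else 0) =
          ∑ l, y l * polar (F k) x (fun i => a i l) - ∑ l, z l * polar (F k) x (fun i => a i l) -
          (y k - z k) := by
        simp only [mul_sub, sub_mul, Finset.sum_sub_distrib, mul_ite, mul_one, mul_zero,
          Finset.sum_ite_eq, Finset.mem_univ, if_true]
      rw [this]; ring
    rw [e1, Real.norm_eq_abs]
    have b1 : |∑ l, (y l - z l) *
        (polar (F k) x (fun i => a i l) - if k = l then 1 else 0)| ≤ δ * ‖y - z‖ := by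
      calc _ ≤ ∑ l, |(y l - z l) *
            (polar (F k) x (fun i => a i l) - if k = l then 1 else 0)| :=
            Finset.abs_sum_le_sum_abs _ _
        _ ≤ ∑ l, ‖y - z‖ * |polar (F k) x (fun i => a i l) - if k = l then 1 else 0| := by
            refine Finset.sum_le_sum fun l _ => ?_
            rw [abs_mul]
            exact mul_le_mul_of_nonneg_right (norm_le_pi_norm (y - z) l) (abs_nonneg _)
        _ = (∑ l, |polar (F k) x (fun i => a i l) - if k = l then 1 else 0|) * ‖y - z‖ := by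
            rw [← Finset.mul_sum, mul_comm]
        _ ≤ _ := mul_le_mul_of_nonneg_right (hδ k) (norm_nonneg _)
    have b2 := evalF_sub_le (F k) (fun i => ∑ l, a i l * y l) (fun i => ∑ l, a i l * z l) r ρ
      ‖y - z‖ hρ.le (norm_nonneg _) hr0
      (fun i => (hlin y i).trans (mul_le_mul_of_nonneg_left hy (hr0 i)))
      (fun i => (hlin z i).trans (mul_le_mul_of_nonneg_left hz (hr0 i)))
      (fun i => by
        have := hlin (y - z) i
        rw [← Finset.sum_sub_distrib]
        simpa only [Pi.sub_apply, mul_sub] using this)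
    have b3 : 2 * ρ * ‖y - z‖ * absF (F k) r ≤ 2 * ρ * ‖y - z‖ * S :=
      mul_le_mul_of_nonneg_left (hS k) (by positivity)
    calc _ ≤ |∑ l, (y l - z l) * (polar (F k) x (fun i => a i l) - if k = l then 1 else 0)| +
          |evalF (F k) (fun i => ∑ l, a i l * y l) - evalF (F k) (fun i => ∑ l, a i l * z l)| := by
          refine (abs_sub _ _).trans ?_
          rw [abs_neg]
      _ ≤ δ * ‖y - z‖ + 2 * ρ * ‖y - z‖ * S := add_le_add b1 (b2.trans b3)
      _ = (δ + 2 * ρ * S) * ‖y - z‖ := by ring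
      _ ≤ _ := mul_le_mul_of_nonneg_right h1 (norm_nonneg _)
  have hT0 : ‖T 0‖ ≤ ε ∨ K = 0 := by
    rcases Nat.eq_zero_or_pos K with h | h
    · right; exact h
    · left
      have : 0 ≤ ε := (abs_nonneg _).trans (hε ⟨0, h⟩)
      rw [pi_norm_le_iff_of_nonneg this]
      intro k
      simp only [hT, Pi.zero_apply, mul_zero, Finset.sum_const_zero, add_zero, zero_sub,
        norm_neg, Real.norm_eq_abs]
      exact hε k
  have hmaps : Set.MapsTo T (Metric.closedBall (0 : Fin K → ℝ) ρ)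
      (Metric.closedBall (0 : Fin K → ℝ) ρ) := by
    intro y hy
    have h3 := hlip y hy 0 (by simp [hρ.le])
    rw [mem_closedBall_zero_iff] at hy ⊢
    have h4 : ‖T 0‖ ≤ ρ / 2 := by
      rcases hT0 with h | h
      · exact h.trans h2
      · subst h
        have : T 0 = 0 := by funext k; exact k.elim0
        rw [this, norm_zero]; positivity
    rw [dist_eq_norm, dist_zero_right] at h3
    calc ‖T y‖ = ‖(T y - T 0) + T 0‖ := by rw [sub_add_cancel]
      _ ≤ ‖T y - T 0‖ + ‖T 0‖ := norm_add_le _ _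
      _ ≤ 1 / 2 * ‖y‖ + ρ / 2 := add_le_add h3 h4
      _ ≤ ρ := by linarith
  have hcon : ContractingWith (1 / 2 : NNReal) (hmaps.restrict T _ _) := by
    refine ⟨by rw [← NNReal.coe_lt_coe]; norm_num, ?_⟩
    refine LipschitzWith.of_dist_le_mul fun y z => ?_
    show dist (T y.1) (T z.1) ≤ _
    refine (hlip y.1 y.2 z.1 z.2).trans (le_of_eq ?_)
    rw [Subtype.dist_eq]
    norm_num
  obtain ⟨y, hy, hfix, -⟩ := hcon.exists_fixedPoint' (Metric.isClosed_closedBall.isComplete) hmaps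
    (x := 0) (by simp [hρ.le]) (edist_ne_top _ _)
  refine ⟨y, fun k => ?_, fun k => ?_⟩
  · rw [mem_closedBall_zero_iff] at hy
    exact (norm_le_pi_norm y k).trans hy
  · have := congrFun hfix k
    simp only [hT] at this
    linarith

end Pool.Agent.Q206.PI
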